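import Mathlib

/-!
# Two vertices of maximum degree in forests: the threshold for `t` deletions

For a finite graph `G` let `f G` be the least number of vertices whose deletion leaves a graph with
at least two vertices of maximum degree, or with fewer than two vertices. With
`N t = (t^3 + 6 t^2 + 17 t + 12) / 6`, every forest with at most `N t` vertices has `f ≤ t`, and
some tree with `N t + 1` vertices has `f ≥ t + 1`.

Upper bound: let `f F ≥ t + 1` and let `v` be the vertex of maximum degree. If `e` is the largest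
degree of another vertex `w`, at most one neighbour of `v` is equal or adjacent to `w`, so deleting
`deg v - e` other neighbours of `v` gives two vertices of maximum degree; hence
`deg v ≥ e + t + 1`. Deleting `v` and iterating, the forest has at least
`2 + 4 + 7 + 11 + ...` (`t + 1` terms) edges. Lower bound: `t + 1` stars with these numbers of
edges, having one leaf in common.
-/

set_option autoImplicit false

namespace Pool.Agent.Results.MP_fe24f9_co.ForestThreshold

open Finset

section Defs

/-- The degree of `v` in `H`. -/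
noncomputable def deg {W : Type*} (H : SimpleGraph W) (v : W) : ℕ := (H.neighborSet v).ncard

/-- `H` has at least two vertices of maximum degree, or `H` has fewer than two vertices. -/
def Good {W : Type*} (H : SimpleGraph W) : Prop :=
  (∃ u v : W, u ≠ v ∧ (∀ w, deg H w ≤ deg H u) ∧ (∀ w, deg H w ≤ deg H v)) ∨ Nat.card W < 2

/-- The least `|B|` over all sets `B` of vertices such that `G - B` is good. -/
noncomputable def f {V : Type*} (G : SimpleGraph V) : ℕ :=
  sInf {b | ∃ B : Finset V, B.card = b ∧ Good (G.induce {v | v ∉ B})}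

/-- The threshold `(t^3 + 6 t^2 + 17 t + 12) / 6` (the division is exact). -/
def N (t : ℕ) : ℕ := (t ^ 3 + 6 * t ^ 2 + 17 * t + 12) / 6

end Defs

section Work

variable {V : Type*} [Fintype V] [DecidableEq V] (G : SimpleGraph V) [DecidableRel G.Adj]

/-- the degree of `v` inside `S` -/
def dg (S : Finset V) (v : V) : ℕ := (S.filter (G.Adj v)).card

/-- goodness of the graph induced by `S` -/
def Good' (S : Finset V) : Prop :=
  (∃ u ∈ S, ∃ v ∈ S, u ≠ v ∧ dg G S u = dg G S v ∧ ∀ w ∈ S, dg G S w ≤ dg G S u) ∨ S.card < 2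

omit [Fintype V] [DecidableEq V] in
lemma dg_mono {S T : Finset V} (h : S ⊆ T) (v : V) : dg G S v ≤ dg G T v :=
  card_le_card (filter_subset_filter _ h)

/-- the degrees of the stars -/
def rho : ℕ → ℕ
  | 0 => 2
  | n + 1 => rho n + (n + 2)

/-- the total number of edges of the stars -/
def sig : ℕ → ℕ
  | 0 => 2
  | n + 1 => sig n + rho (n + 1)

lemma rho_eq (n : ℕ) : 2 * rho n = 2 + (n + 1) * (n + 2) := by
  induction n with
  | zero => rfl
  | succ n ih => simp only [rho]; rw [mul_add, ih]; ring

lemma sig_eq (n : ℕ) : 6 * sig n = n ^ 3 + 6 * n ^ 2 + 17 * n + 12 := by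
  induction n with
  | zero => rfl
  | succ n ih =>
    have h := rho_eq (n + 1)
    simp only [sig]
    rw [mul_add, ih, show 6 * rho (n + 1) = 3 * (2 * rho (n + 1)) by ring, h]
    ring

lemma N_eq (t : ℕ) : N t = sig t := by
  unfold N
  rw [← sig_eq]
  simp

lemma two_le_rho (n : ℕ) : 2 ≤ rho n := by
  have := rho_eq n
  nlinarith [Nat.zero_le n]

omit [Fintype V] [DecidableEq V] [DecidableRel G.Adj] in
/-- in a forest, at most one vertex is adjacent to `v` and equal or adjacent to `w` -/
lemma unique_common (hG : G.IsAcyclic) {v w x y : V} (hvw : v ≠ w) (hx : G.Adj v x)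
    (hy : G.Adj v y) (hx' : x = w ∨ G.Adj w x) (hy' : y = w ∨ G.Adj w y) : x = y := by
  classical
  by_contra hne
  have key : ∀ z, G.Adj v z → (z = w ∨ G.Adj w z) →
      ∃ p : G.Path v w, p.1.snd = z := by
    intro z hz hz'
    rcases hz' with rfl | hz'
    · refine ⟨⟨.cons hz .nil, ?_⟩, ?_⟩
      · simp [SimpleGraph.Walk.isPath_def, hvw]
      · simp
    · refine ⟨⟨.cons hz (.cons hz'.symm .nil), ?_⟩, ?_⟩
      · have h1 := hz.ne
        have h2 := hz'.ne
        simp only [SimpleGraph.Walk.isPath_def, SimpleGraph.Walk.support_cons,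
          SimpleGraph.Walk.support_nil, List.nodup_cons, List.mem_cons, List.not_mem_nil,
          or_false, not_or, List.nodup_nil, and_true, not_false_eq_true]
        exact ⟨⟨h1, hvw⟩, h2.symm⟩
      · simp
  obtain ⟨p, hp⟩ := key x hx hx'
  obtain ⟨q, hq⟩ := key y hy hy'
  apply hne
  have := hG.subsingleton_path v w
  rw [← hp, ← hq, Subsingleton.elim p q]

omit [Fintype V] in
lemma sum_erase {S : Finset V} {v : V} (hv : v ∈ S) :
    ∑ w ∈ S, dg G S w = ∑ w ∈ S.erase v, dg G (S.erase v) w + 2 * dg G S v := by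
  have h1 : ∀ w ∈ S.erase v, dg G S w = dg G (S.erase v) w + (if G.Adj v w then 1 else 0) := by
    intro w hw
    unfold dg
    rw [← insert_erase hv, filter_insert]
    by_cases h : G.Adj v w
    · rw [if_pos h.symm, if_pos h, card_insert_of_notMem]
      · rw [erase_insert (by simp)]
      · simp
    · rw [if_neg (fun h' => h h'.symm), if_neg h, erase_insert (by simp)]
      rfl
  rw [← add_sum_erase S _ hv, sum_congr rfl h1, sum_add_distrib]
  have h2 : ∑ w ∈ S.erase v, (if G.Adj v w then 1 else 0) = dg G S v := by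
    rw [sum_boole]
    simp only [Nat.cast_id]
    unfold dg
    congr 1
    ext x
    simp only [mem_filter, mem_erase]
    constructor
    · rintro ⟨⟨_, h⟩, h'⟩; exact ⟨h, h'⟩
    · rintro ⟨h, h'⟩; exact ⟨⟨h'.ne', h⟩, h'⟩
  rw [h2]
  ring

omit [Fintype V] in
/-- main induction -/
lemma main_ind (hG : G.IsAcyclic) (t : ℕ) : ∀ S : Finset V,
    (∀ B ⊆ S, B.card ≤ t → ¬ Good' G (S \ B)) →
    ∃ v ∈ S, rho t ≤ dg G S v ∧ 2 * sig t ≤ ∑ w ∈ S, dg G S w := by
  -- the unique vertex of maximum degree
  have hmax : ∀ S : Finset V, ¬ Good' G S →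
      2 ≤ S.card ∧ ∃ v ∈ S, ∀ w ∈ S, w ≠ v → dg G S w < dg G S v := by
    intro S hS
    unfold Good' at hS
    push Not at hS
    obtain ⟨h1, h2⟩ := hS
    refine ⟨h2, ?_⟩
    obtain ⟨v, hv, hvm⟩ := exists_max_image S (dg G S) (card_pos.1 (by omega))
    refine ⟨v, hv, fun w hw hne => ?_⟩
    rcases lt_or_eq_of_le (hvm w hw) with h | h
    · exact h
    · exfalso
      obtain ⟨z, hz, hz'⟩ := h1 v hv w hw hne.symm h.symm
      exact absurd (hvm z hz) (by omega)
  induction t with
  | zero =>
    intro S hS
    have h0 : ¬ Good' G S := by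
      have := hS ∅ (by simp) (by simp)
      simpa using this
    obtain ⟨hc, v, hv, hvm⟩ := hmax S h0
    obtain ⟨w, hw, hwv⟩ : ∃ w ∈ S, w ≠ v := by
      by_contra hcon
      push Not at hcon
      have : S ⊆ {v} := fun x hx => by simpa using hcon x hx
      have := card_le_card this
      simp at this
      omega
    have hpos : 0 < dg G S v := lt_of_le_of_lt (Nat.zero_le _) (hvm w hw hwv)
    have hnb : ∀ x ∈ S.filter (G.Adj v), 1 ≤ dg G S x := by
      intro x hx
      simp only [mem_filter] at hx
      exact card_pos.2 ⟨v, by simp [hv, hx.2.symm]⟩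
    obtain ⟨x, hx⟩ := card_pos.1 hpos
    have hx1 := hnb x hx
    simp only [mem_filter] at hx
    have hx2 := hvm x hx.1 hx.2.ne'
    refine ⟨v, hv, by simp only [rho]; omega, ?_⟩
    have hsum : ∑ w ∈ S.filter (G.Adj v), 1 ≤ ∑ w ∈ S.erase v, dg G S w := by
      refine (sum_le_sum hnb).trans (sum_le_sum_of_subset ?_)
      intro y hy
      simp only [mem_filter] at hy
      exact mem_erase.2 ⟨hy.2.ne', hy.1⟩
    rw [← add_sum_erase S _ hv]
    simp only [sum_const, smul_eq_mul, mul_one] at hsum
    change dg G S v ≤ _ at hsum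
    simp only [sig]
    omega
  | succ t ih =>
    intro S hS
    have h0 : ¬ Good' G S := by
      have := hS ∅ (by simp) (by simp)
      simpa using this
    obtain ⟨hc, v, hv, hvm⟩ := hmax S h0
    obtain ⟨w', hw', hw'1, hw'2⟩ := ih (S.erase v) (by
      intro B hB hBc
      have hvB : v ∉ B := fun h => by simpa using hB h
      have := hS (insert v B) (by
        intro x hx
        rcases mem_insert.1 hx with rfl | hx
        · exact hv
        · exact (mem_erase.1 (hB hx)).2) (by rw [card_insert_of_notMem hvB]; omega)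
      have e : S \ insert v B = S.erase v \ B := by
        ext x; simp only [mem_sdiff, mem_insert, mem_erase]; tauto
      rwa [e] at this)
    obtain ⟨w, hw, hwm⟩ := exists_max_image (S.erase v) (dg G S) ⟨w', hw'⟩
    have hwS := (mem_erase.1 hw).2
    have hwv := (mem_erase.1 hw).1
    have he : rho t ≤ dg G S w :=
      hw'1.trans ((dg_mono G (erase_subset v S) w').trans (hwm w' hw'))
    have h2 := two_le_rho t
    have hvw := hvm w hwS hwv
    have hclaim : dg G S w + (t + 2) ≤ dg G S v := by
      by_contra hcon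
      push Not at hcon
      -- the available neighbours
      set A := S.filter fun x => G.Adj v x ∧ ¬ (x = w ∨ G.Adj w x) with hA
      have hAc : dg G S v ≤ A.card + 1 := by
        have hsplit : S.filter (G.Adj v) ⊆ A ∪ S.filter fun x => G.Adj v x ∧ (x = w ∨ G.Adj w x) := by
          intro x hx
          simp only [mem_filter, mem_union, hA] at hx ⊢
          tauto
        have h1 : (S.filter fun x => G.Adj v x ∧ (x = w ∨ G.Adj w x)).card ≤ 1 := by
          rw [card_le_one]
          intro a ha b hb
          simp only [mem_filter] at ha hb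
          exact unique_common G hG hwv.symm ha.2.1 hb.2.1 ha.2.2 hb.2.2
        calc dg G S v ≤ _ := card_le_card hsplit
          _ ≤ _ := card_union_le _ _
          _ ≤ _ := by omega
      obtain ⟨B, hBA, hBc⟩ := exists_subset_card_eq (s := A) (n := dg G S v - dg G S w) (by omega)
      have hBS : B ⊆ S := hBA.trans (filter_subset _ _)
      apply hS B hBS (by omega)
      left
      have hvB : v ∉ B := fun h => by
        have := hBA h
        simp [hA] at this
      have hwB : w ∉ B := fun h => by
        have := hBA h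
        simp [hA] at this
      have e1 : dg G (S \ B) w = dg G S w := by
        unfold dg
        congr 1
        ext x
        simp only [mem_filter, mem_sdiff]
        constructor
        · rintro ⟨⟨h, _⟩, h'⟩; exact ⟨h, h'⟩
        · rintro ⟨h, h'⟩
          refine ⟨⟨h, fun hx => ?_⟩, h'⟩
          have := hBA hx
          simp only [hA, mem_filter] at this
          tauto
      have e2 : dg G (S \ B) v = dg G S w := by
        have : (S \ B).filter (G.Adj v) = S.filter (G.Adj v) \ B := by
          ext x; simp only [mem_filter, mem_sdiff]; tauto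
        unfold dg at *
        rw [this, card_sdiff_of_subset]
        · rw [hBc]; omega
        · intro x hx
          have := hBA hx
          simp only [hA, mem_filter] at this ⊢
          tauto
      refine ⟨v, mem_sdiff.2 ⟨hv, hvB⟩, w, mem_sdiff.2 ⟨hwS, hwB⟩, hwv.symm, by rw [e1, e2], ?_⟩
      intro z hz
      rw [e2]
      by_cases hzv : z = v
      · rw [hzv, e2]
      · exact (dg_mono G sdiff_subset z).trans
          (hwm z (mem_erase.2 ⟨hzv, (mem_sdiff.1 hz).1⟩))
    refine ⟨v, hv, by simp only [rho]; omega, ?_⟩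
    rw [sum_erase G hv]
    simp only [sig, rho]
    omega

end Work

section Bridge

lemma degree_induce {V : Type*} [Fintype V] [DecidableEq V] (G : SimpleGraph V)
    [DecidableRel G.Adj] (B : Finset V)
    (v : {v : V | v ∉ B}) :
    deg (G.induce {v | v ∉ B}) v = dg G Bᶜ v.1 := by
  unfold dg deg
  rw [← Set.ncard_image_of_injective _ Subtype.val_injective, ← Set.ncard_coe_finset]
  congr 1
  ext x
  simp only [Set.mem_image, SimpleGraph.mem_neighborSet, SimpleGraph.comap_adj,
    Function.Embedding.subtype_apply, coe_filter, Set.mem_ofPred_eq, mem_compl]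
  constructor
  · rintro ⟨a, h, rfl⟩
    exact ⟨a.2, h⟩
  · rintro ⟨h, h'⟩
    exact ⟨⟨x, h⟩, h', rfl⟩

lemma good_iff {V : Type*} [Fintype V] [DecidableEq V] (G : SimpleGraph V)
    [DecidableRel G.Adj] (B : Finset V) :
    Good (G.induce {v | v ∉ B}) ↔ Good' G Bᶜ := by
  unfold Good Good'
  have hcard : Nat.card {v : V | v ∉ B} = (Bᶜ).card := by
    rw [Nat.card_coe_set_eq, ← Set.ncard_coe_finset]
    congr 1
    ext x
    simp
  rw [hcard]
  apply or_congr _ Iff.rfl
  constructor
  · rintro ⟨u, v, huv, hu, hv⟩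
    refine ⟨u.1, mem_compl.2 u.2, v.1, mem_compl.2 v.2, fun h => huv (Subtype.ext h), ?_, ?_⟩
    · rw [← degree_induce, ← degree_induce]
      exact le_antisymm (hv u) (hu v)
    · intro w hw
      have := hu ⟨w, mem_compl.1 hw⟩
      rw [degree_induce, degree_induce] at this
      exact this
  · rintro ⟨u, hu, v, hv, huv, h1, h2⟩
    refine ⟨⟨u, mem_compl.1 hu⟩, ⟨v, mem_compl.1 hv⟩, fun h => huv (congrArg Subtype.val h),
      fun w => ?_, fun w => ?_⟩
    · rw [degree_induce, degree_induce]
      exact h2 w.1 (mem_compl.2 w.2)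
    · rw [degree_induce, degree_induce]
      exact (h2 w.1 (mem_compl.2 w.2)).trans h1.le

lemma le_f_iff {V : Type*} [Fintype V] [DecidableEq V] (G : SimpleGraph V)
    [DecidableRel G.Adj] (t : ℕ) :
    t + 1 ≤ f G ↔ ∀ B : Finset V, B.card ≤ t → ¬ Good' G Bᶜ := by
  unfold f
  constructor
  · intro h B hB hg
    have := Nat.sInf_le (s := {b | ∃ B : Finset V, B.card = b ∧ Good (G.induce {v | v ∉ B})})
      ⟨B, rfl, (good_iff G B).2 hg⟩
    omega
  · intro h
    by_contra hcon
    push Not at hcon
    have hne : {b | ∃ B : Finset V, B.card = b ∧ Good (G.induce {v | v ∉ B})}.Nonempty := by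
      refine ⟨_, univ, rfl, (good_iff G univ).2 (Or.inr ?_)⟩
      simp
    obtain ⟨B, hB, hg⟩ := Nat.sInf_mem hne
    exact h B (by omega) ((good_iff G B).1 hg)

end Bridge

section Upper

lemma upper {V : Type*} [Fintype V] (F : SimpleGraph V) (hF : F.IsAcyclic) (t : ℕ)
    (h : t + 1 ≤ f F) : N t + 1 ≤ Fintype.card V := by
  classical
  rw [le_f_iff] at h
  obtain ⟨v, hv, -, hs⟩ := main_ind F hF t univ (by
    intro B _ hB
    have := h B hB
    rwa [← compl_eq_univ_sdiff])
  have hne : Nonempty V := ⟨v⟩
  obtain ⟨T, hT, -, hT'⟩ := SimpleGraph.connected_top.exists_isTree_le_of_le_of_isAcyclic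
    (le_top : F ≤ ⊤) hF
  have h1 := hT'.card_edgeFinset
  have h2 : F.edgeFinset.card ≤ T.edgeFinset.card :=
    card_le_card (SimpleGraph.edgeFinset_mono hT)
  have h3 := F.sum_degrees_eq_twice_card_edges
  have h4 : ∀ w, dg F univ w = F.degree w := by
    intro w
    unfold dg
    rw [← SimpleGraph.card_neighborFinset_eq_degree]
    congr 1
    ext x
    simp
  rw [sum_congr rfl (fun w _ => h4 w), h3] at hs
  rw [N_eq]
  omega

end Upper

section Lower

/-- the vertices of the tree: one common leaf, and the other vertices of the stars -/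
abbrev VT (t : ℕ) : Type := Option (Σ i : Fin (t + 1), Fin (rho i))

/-- the centre of the star with number `i` -/
def ctr {t : ℕ} (i : Fin (t + 1)) : VT t := some ⟨i, ⟨0, by have := two_le_rho i; omega⟩⟩

/-- the parent relation: `Par x y` if `x` is the parent of `y` -/
def Par {t : ℕ} (x y : VT t) : Prop :=
  (x = none ∧ ∃ i, y = ctr i) ∨ ∃ i, x = ctr i ∧ ∃ j : Fin (rho i), j.1 ≠ 0 ∧ y = some ⟨i, j⟩

/-- the height of a vertex -/
def ht {t : ℕ} : VT t → ℕ
  | none => 0
  | some p => if p.2.1 = 0 then 1 else 2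

lemma ht_lt {t : ℕ} {x y : VT t} (h : Par x y) : ht x < ht y := by
  rcases h with ⟨rfl, i, rfl⟩ | ⟨i, rfl, j, hj, rfl⟩
  · simp [ht, ctr]
  · simp [ht, ctr, hj]

lemma par_unique {t : ℕ} {x x' y : VT t} (h : Par x y) (h' : Par x' y) : x = x' := by
  rcases h with ⟨rfl, i, rfl⟩ | ⟨i, rfl, j, hj, rfl⟩ <;>
  rcases h' with ⟨rfl, i', h2⟩ | ⟨i', rfl, j', hj', h2⟩
  · rfl
  · exfalso
    simp only [ctr, Option.some.injEq, Sigma.mk.injEq] at h2
    obtain ⟨rfl, h2⟩ := h2
    rw [heq_eq_eq] at h2
    rw [← h2] at hj'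
    exact hj' rfl
  · exfalso
    simp only [ctr, Option.some.injEq, Sigma.mk.injEq] at h2
    obtain ⟨rfl, h2⟩ := h2
    rw [heq_eq_eq] at h2
    rw [h2] at hj
    exact hj rfl
  · simp only [Option.some.injEq, Sigma.mk.injEq] at h2
    obtain ⟨rfl, h2⟩ := h2
    rfl

/-- the tree -/
def tree (t : ℕ) : SimpleGraph (VT t) where
  Adj x y := Par x y ∨ Par y x
  symm := ⟨fun _ _ h => h.symm⟩
  loopless := ⟨fun x h => by rcases h with h | h <;> exact absurd (ht_lt h) (lt_irrefl _)⟩

lemma tree_acyclic (t : ℕ) : (tree t).IsAcyclic := by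
  classical
  intro v c hc
  obtain ⟨u, hu, hum⟩ := exists_max_image c.support.toFinset ht ⟨v, by simp⟩
  have hu' : u ∈ c.support := by simpa using hu
  have hc' := hc.rotate hu'
  have hsup : ∀ z ∈ (c.rotate u hu').support, ht z ≤ ht u := by
    intro z hz
    apply hum
    rw [List.mem_toFinset]
    exact (SimpleGraph.Walk.mem_support_rotate_iff c u hu').1 hz
  have hnn := hc'.not_nil
  have h1 := SimpleGraph.Walk.adj_snd hnn
  have h2 := SimpleGraph.Walk.adj_penultimate hnn
  have h3 := hc'.snd_ne_penultimate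
  have hp1 : Par (c.rotate u hu').snd u := by
    rcases h1 with h | h
    · exact absurd (ht_lt h) (not_lt.2 (hsup _ ((c.rotate u hu').getVert_mem_support 1)))
    · exact h
  have hp2 : Par (c.rotate u hu').penultimate u := by
    rcases h2 with h | h
    · exact h
    · exact absurd (ht_lt h) (not_lt.2 (hsup _ ((c.rotate u hu').getVert_mem_support _)))
  exact h3 (par_unique hp1 hp2)

lemma sum_rho (t : ℕ) : ∑ i : Fin (t + 1), rho i = sig t := by
  rw [Fin.sum_univ_eq_sum_range (fun i => rho i)]
  induction t with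
  | zero => simp [rho, sig]
  | succ t ih => rw [sum_range_succ, ih]; rfl

lemma card_VT (t : ℕ) : Fintype.card (VT t) = N t + 1 := by
  rw [Fintype.card_option, Fintype.card_sigma, N_eq]
  simp [sum_rho]

noncomputable instance (t : ℕ) : DecidableRel (tree t).Adj := fun _ _ => Classical.dec _

lemma ctr_inj {t : ℕ} {i j : Fin (t + 1)} (h : ctr i = ctr j) : i = j := by
  simp only [ctr, Option.some.injEq, Sigma.mk.injEq] at h
  exact h.1

lemma adj_ctr {t : ℕ} (i : Fin (t + 1)) (x : VT t) :
    (tree t).Adj (ctr i) x ↔ x = none ∨ ∃ j : Fin (rho i), j.1 ≠ 0 ∧ x = some ⟨i, j⟩ := by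
  constructor
  · rintro (h | h)
    · rcases h with ⟨h, _⟩ | ⟨i', h, j, hj, rfl⟩
      · simp [ctr] at h
      · right
        have := ctr_inj h
        subst this
        exact ⟨j, hj, rfl⟩
    · rcases h with ⟨rfl, _⟩ | ⟨i', rfl, j, hj, h⟩
      · exact Or.inl rfl
      · exfalso
        simp only [ctr, Option.some.injEq, Sigma.mk.injEq] at h
        obtain ⟨rfl, h⟩ := h
        rw [heq_eq_eq] at h
        rw [← h] at hj
        exact hj rfl
  · rintro (rfl | ⟨j, hj, rfl⟩)
    · exact Or.inr (Or.inl ⟨rfl, i, rfl⟩)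
    · exact Or.inl (Or.inr ⟨i, rfl, j, hj, rfl⟩)

lemma adj_none {t : ℕ} (x : VT t) : (tree t).Adj none x ↔ ∃ i, x = ctr i := by
  constructor
  · rintro (h | h)
    · rcases h with ⟨_, h⟩ | ⟨i', h, _⟩
      · exact h
      · simp [ctr] at h
    · rcases h with ⟨rfl, i, h⟩ | ⟨i', rfl, j, hj, h⟩
      · simp [ctr] at h
      · simp at h
  · rintro ⟨i, rfl⟩
    exact Or.inl (Or.inl ⟨rfl, i, rfl⟩)

lemma adj_leaf {t : ℕ} (i : Fin (t + 1)) (j : Fin (rho i)) (hj : j.1 ≠ 0) (x : VT t)
    (h : (tree t).Adj (some ⟨i, j⟩) x) : x = ctr i := by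
  rcases h with h | h
  · rcases h with ⟨h, _⟩ | ⟨i', h, _⟩
    · simp at h
    · exfalso
      simp only [ctr, Option.some.injEq, Sigma.mk.injEq] at h
      obtain ⟨rfl, h⟩ := h
      rw [heq_eq_eq] at h
      rw [h] at hj
      exact hj rfl
  · rcases h with ⟨rfl, i', h⟩ | ⟨i', rfl, j', hj', h⟩
    · exfalso
      simp only [ctr, Option.some.injEq, Sigma.mk.injEq] at h
      obtain ⟨rfl, h⟩ := h
      rw [heq_eq_eq] at h
      rw [h] at hj
      exact hj rfl
    · simp only [Option.some.injEq, Sigma.mk.injEq] at h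
      obtain ⟨rfl, h⟩ := h
      rfl

/-- the neighbours of a centre -/
def nb {t : ℕ} (i : Fin (t + 1)) : Finset (VT t) :=
  univ.image fun j : Fin (rho i) => if j.1 = 0 then none else some ⟨i, j⟩

lemma mem_nb {t : ℕ} (i : Fin (t + 1)) (x : VT t) : x ∈ nb i ↔ (tree t).Adj (ctr i) x := by
  rw [adj_ctr]
  simp only [nb, mem_image, mem_univ, true_and]
  constructor
  · rintro ⟨j, rfl⟩
    by_cases h : j.1 = 0
    · simp [h]
    · rw [if_neg h]
      exact Or.inr ⟨j, h, rfl⟩
  · rintro (rfl | ⟨j, hj, rfl⟩)
    · exact ⟨⟨0, by have := two_le_rho i; omega⟩, by simp⟩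
    · exact ⟨j, by rw [if_neg hj]⟩

lemma card_nb {t : ℕ} (i : Fin (t + 1)) : (nb i : Finset (VT t)).card = rho i := by
  unfold nb
  rw [card_image_of_injective, card_univ, Fintype.card_fin]
  intro a b h
  simp only at h
  by_cases ha : a.1 = 0 <;> by_cases hb : b.1 = 0
  · exact Fin.ext (ha.trans hb.symm)
  · simp [ha, hb] at h
  · simp [ha, hb] at h
  · rw [if_neg ha, if_neg hb] at h
    simpa using h

lemma dg_eq {t : ℕ} (S : Finset (VT t)) (i : Fin (t + 1)) :
    dg (tree t) S (ctr i) = (S ∩ nb i).card := by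
  unfold dg
  congr 1
  ext x
  simp [mem_nb]

lemma lower (t : ℕ) : t + 1 ≤ f (tree t) := by
  rw [le_f_iff]
  intro B hB
  -- the centre of largest index outside `B`
  have hex : ∃ i : Fin (t + 1), ctr i ∉ B := by
    by_contra hcon
    push Not at hcon
    have h1 : (univ : Finset (Fin (t + 1))).card ≤ B.card :=
      card_le_card_of_injOn ctr (fun i _ => hcon i) (fun i _ j _ h => ctr_inj h)
    simp at h1
    omega
  obtain ⟨i, hi, him⟩ : ∃ i : Fin (t + 1), ctr i ∉ B ∧ ∀ j, i < j → ctr j ∈ B := by
    obtain ⟨i, hi, him⟩ := exists_max_image (univ.filter fun i : Fin (t + 1) => ctr i ∉ B) id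
      (by obtain ⟨i, hi⟩ := hex; exact ⟨i, by simpa using hi⟩)
    simp only [mem_filter, mem_univ, true_and, id] at hi him
    exact ⟨i, hi, fun j hj => by
      by_contra h
      exact absurd (him j h) (not_le.2 hj)⟩
  have hcount : (B ∩ nb i).card + (t - i.1) ≤ t := by
    have h1 : ((univ : Finset (Fin (t + 1))).filter fun j => i < j).card = t - i.1 := by
      have : (univ : Finset (Fin (t + 1))).filter (fun j => i < j) = Ioi i := by ext; simp
      rw [this, Fin.card_Ioi]
      omega
    rw [← h1, ← card_image_of_injective (univ.filter fun j => i < j)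
      (f := (ctr : Fin (t + 1) → VT t)) (fun a b h => ctr_inj h), ← card_union_of_disjoint]
    · refine (card_le_card ?_).trans hB
      intro x hx
      rcases mem_union.1 hx with hx | hx
      · exact (mem_inter.1 hx).1
      · obtain ⟨j, hj, rfl⟩ := mem_image.1 hx
        exact him j (by simpa using hj)
    · rw [disjoint_left]
      intro x hx hx'
      obtain ⟨j, hj, rfl⟩ := mem_image.1 hx'
      have := (mem_nb i _).1 (mem_inter.1 hx).2
      rw [adj_ctr] at this
      rcases this with h | ⟨j', hj', h⟩
      · simp [ctr] at h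
      · simp only [ctr, Option.some.injEq, Sigma.mk.injEq] at h
        obtain ⟨rfl, h⟩ := h
        rw [heq_eq_eq] at h
        rw [← h] at hj'
        exact hj' rfl
  have hle : i.1 ≤ t := by omega
  have hd : rho i ≤ (Bᶜ ∩ nb i).card + i.1 := by
    have h1 : (nb i : Finset (VT t)).card ≤ (Bᶜ ∩ nb i).card + (B ∩ nb i).card := by
      rw [← card_union_of_disjoint]
      · apply card_le_card
        intro x hx
        by_cases h : x ∈ B <;> simp [h, hx]
      · rw [disjoint_left]
        intro x hx hx'
        exact (mem_compl.1 (mem_inter.1 hx).1) (mem_inter.1 hx').1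
    rw [card_nb] at h1
    omega
  -- every other vertex has smaller degree
  have hother : ∀ x ∈ Bᶜ, x ≠ ctr i → dg (tree t) Bᶜ x < dg (tree t) Bᶜ (ctr i) := by
    intro x hx hne
    rw [dg_eq]
    have hr := rho_eq i.1
    rcases x with _ | ⟨j, l⟩
    · have h1 : dg (tree t) Bᶜ none ≤ i.1 + 1 := by
        unfold dg
        have : (Bᶜ).filter ((tree t).Adj none) ⊆ (Iic i).image ctr := by
          intro y hy
          simp only [mem_filter, mem_compl, adj_none] at hy
          obtain ⟨hy, j, rfl⟩ := hy
          refine mem_image_of_mem _ (mem_Iic.2 ?_)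
          by_contra hlt
          exact hy (him j (not_le.1 hlt))
        refine (card_le_card this).trans (card_image_le.trans ?_)
        rw [Fin.card_Iic]
      have h2 : i.1 * 4 ≤ i.1 * i.1 + 4 := by nlinarith [sq_nonneg ((i.1 : ℤ) - 2)]
      have h3 : i.1 + 1 + i.1 < rho i.1 := by nlinarith
      omega
    · by_cases hl : l.1 = 0
      · have hx' : (some ⟨j, l⟩ : VT t) = ctr j := by
          simp only [ctr]
          congr 2
          exact Fin.ext hl
        rw [hx'] at hne hx ⊢
        have hji : j < i := by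
          rcases lt_trichotomy j i with h | h | h
          · exact h
          · exact absurd (by rw [h]) hne
          · exact absurd (him j h) (mem_compl.1 hx)
        rw [dg_eq]
        have h1 : (Bᶜ ∩ nb j).card ≤ rho j := by
          rw [← card_nb j]
          exact card_le_card inter_subset_right
        have h2 : rho j.1 ≤ rho (i.1 - 1) := by
          have h3 := rho_eq j.1
          have h4 := rho_eq (i.1 - 1)
          have h5 : j.1 ≤ i.1 - 1 := by
            have : j.1 < i.1 := hji
            omega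
          have h6 : (j.1 + 1) * (j.1 + 2) ≤ (i.1 - 1 + 1) * (i.1 - 1 + 2) :=
            Nat.mul_le_mul (by omega) (by omega)
          omega
        have h3 : rho i.1 = rho (i.1 - 1) + (i.1 - 1 + 2) := by
          obtain ⟨m, hm⟩ : ∃ m, i.1 = m + 1 := ⟨i.1 - 1, by
            have : j.1 < i.1 := hji
            omega⟩
          rw [hm]
          rfl
        have : j.1 < i.1 := hji
        omega
      · have h1 : dg (tree t) Bᶜ (some ⟨j, l⟩) ≤ 1 := by
          unfold dg
          rw [card_le_one]
          intro a ha b hb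
          simp only [mem_filter] at ha hb
          rw [adj_leaf j l hl a ha.2, adj_leaf j l hl b hb.2]
        have h3 : i.1 + 1 < rho i.1 := by nlinarith
        omega
  have hpos : 2 ≤ (Bᶜ ∩ nb i).card := by
    have hr := rho_eq i.1
    have : i.1 + 2 ≤ rho i.1 := by nlinarith
    omega
  rintro (⟨u, hu, v, hv, huv, h1, h2⟩ | h)
  · by_cases hui : u = ctr i
    · have := hother v hv (fun h => huv (hui.trans h.symm))
      rw [← hui] at this
      omega
    · have h3 := hother u hu hui
      have h4 := h2 (ctr i) (mem_compl.2 hi)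
      omega
  · have := card_le_card (inter_subset_left : Bᶜ ∩ nb i ⊆ Bᶜ)
    omega

end Lower

/-- **The threshold for forests.** For every `t ≥ 1`: every forest with at most `N t` vertices
satisfies `f ≤ t`, and some forest with `N t + 1` vertices satisfies `f ≥ t + 1`, where
`N t = (t^3 + 6 t^2 + 17 t + 12) / 6`. -/
theorem result (t : ℕ) (_ht : 1 ≤ t) :
    6 * N t = t ^ 3 + 6 * t ^ 2 + 17 * t + 12 ∧
    (∀ (V : Type) [Fintype V] (F : SimpleGraph V), F.IsAcyclic → Fintype.card V ≤ N t →
      f F ≤ t) ∧
    ∃ (V : Type) (_ : Fintype V) (F : SimpleGraph V), F.IsAcyclic ∧ Fintype.card V = N t + 1 ∧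
      t + 1 ≤ f F := by
  refine ⟨by rw [N_eq, sig_eq], ?_, ?_⟩
  · intro V _ F hF hc
    by_contra hcon
    have := upper F hF t (by omega)
    omega
  · exact ⟨VT t, inferInstance, tree t, tree_acyclic t, card_VT t, lower t⟩

end Pool.Agent.Results.MP_fe24f9_co.ForestThreshold
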